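import Pool.Agent.Lib.MP_9cfc0a_nt.SE.Defs

set_option autoImplicit false

/-! Task A4: the numbers. -/

namespace Pool.Agent.SE

open Filter

private theorem A4_log (δ : ℝ) (hδ : 0 < δ) : ∃ U₀ : ℝ, ∀ U : ℝ, U₀ ≤ U → Real.log U ≤ δ * U := by
  have h := Real.isLittleO_log_id_atTop.def hδ
  have h2 : ∀ᶠ U : ℝ in atTop, Real.log U ≤ δ * U := by
    filter_upwards [h, eventually_ge_atTop (0 : ℝ)] with U h1 h0
    simp only [id] at h1
    rw [Real.norm_eq_abs, Real.norm_eq_abs, abs_of_nonneg h0] at h1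
    exact (le_abs_self _).trans h1
  obtain ⟨U₀, hU⟩ := eventually_atTop.1 h2
  exact ⟨U₀, hU⟩

/-- A4. The regime `r ≥ r₀`, `U ≥ 4000 log r`; `V = 1000 log(r U)`, `x = 16 U/V`, `σ = V/(4√U)`, `m·vl = V/100`.
PROOF. `V = 1000 log r + 1000 log U ≤ U/4 + 1000 log U ≤ U/2` for `U ≥ U₀`, `V ≥ 1000` as `r U ≥ e`, so `x ≥ 32` and `x ≤ U`. (3): `σ² = V²/(16U)`:
`σ²x²/2 = 8U`, `m vl x = 16U/100`. (4): `C r (x+1) ≤ C r · 2U ≤ (rU)²` for `rU ≥ 2C`, `x + 4 ≤ 2x`: the power is `≤ exp(4 x log(rU)) = exp(64 U/1000)`;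
`9/(2σ²) = 72 U/V² ≤ U/10000`; `√(2π)/σ = 4√U √(2π)/V ≤ √U ≤ exp(U/100)`, `exp(3T) ≤ exp(U/100)`: total exponent
`(8 + 0.16 + 0.064 + 0.0001 + 0.03) U ≤ 8.5 U`. (5): `σ²/32 = V²/(512 U) ≤ V/1024 ≤ U/2000`, `m vl/4 = V/400 ≤ U/800`, `r⁵ = exp(5 log r) ≤ exp(U/800)`:
exponent `≤ -U/4 + small ≤ -U/8`. (6), (7) as stated. All for `r ≥ r₀` (then `U ≥ 4000 log r₀` is large: use `Filter` or explicit numbers). -/
theorem regime (C T : ℝ) (hC : 1 ≤ C) (hT : 0 ≤ T) (m : ℕ) (hm : 1 ≤ m) : ∃ r₀ : ℕ, 3 ≤ r₀ ∧ ∀ r : ℕ, r₀ ≤ r → ∀ U : ℝ,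
    4000 * Real.log r ≤ U →
    1000 ≤ VV r U ∧ VV r U ≤ U / 2 ∧
    (sg r U ^ 2 / 2 * (16 * U / VV r U) ^ 2 = 8 * U ∧ m * vl r m U * (16 * U / VV r U) = 16 * U / 100 ∧ 0 < sg r U ∧ 0 < vl r m U) ∧
    ((C * r * (16 * U / VV r U + 1)) ^ (16 * U / VV r U + 4) * Real.exp (8 * U + 16 * U / 100) *
      (Real.exp (3 * T) * (2 * Real.exp (9 / (2 * sg r U ^ 2)) * (Real.sqrt (2 * Real.pi) / sg r U))) ≤ Real.exp (17 / 2 * U)) ∧
    (C * (r : ℝ) ^ 5 * Real.exp (-(U / 4) + sg r U ^ 2 / 32 + m * vl r m U / 4) *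
      (Real.exp (3 * T) * (2 * Real.exp (9 / (2 * sg r U ^ 2)) * (Real.sqrt (2 * Real.pi) / sg r U))) ≤ Real.exp (-(U / 8))) ∧
    (C * Real.exp (-(6 * U)) ≤ 1 / 2 * Real.exp (-(U / 10)) ∧ Real.exp (-(U / 8)) ≤ 1 / 2 * Real.exp (-(U / 10))) ∧
    Real.log r ≤ VV r U / 1000 ∧ 1000 ≤ U := by
  obtain ⟨U₀, hU₀⟩ := A4_log (1 / 4000) (by norm_num)
  set U₁ : ℝ := max (max U₀ (max 1000 C)) (max (1000 * Real.log (2 * C)) (1000 * (Real.log 2 + 3 * T))) with hU₁
  refine ⟨max 3 ⌈Real.exp (U₁ / 4000)⌉₊, le_max_left _ _, ?_⟩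
  intro r hr U hU
  have hr3 : (3 : ℝ) ≤ r := by exact_mod_cast (le_max_left _ _).trans hr
  have hrpos : (0 : ℝ) < r := by linarith
  have hU1 : U₁ ≤ U := by
    have h1 : Real.exp (U₁ / 4000) ≤ r := (Nat.le_ceil _).trans (by exact_mod_cast (le_max_right _ _).trans hr)
    have h2 : U₁ / 4000 ≤ Real.log r := by
      rw [← Real.log_exp (U₁ / 4000)]
      exact Real.log_le_log (Real.exp_pos _) h1
    linarith
  have hUU0 : U₀ ≤ U := ((le_max_left _ _).trans (le_max_left _ _)).trans hU1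
  have hU1000 : 1000 ≤ U := (((le_max_left _ _).trans (le_max_right _ _)).trans (le_max_left _ _)).trans hU1
  have hUC : C ≤ U := (((le_max_right _ _).trans (le_max_right _ _)).trans (le_max_left _ _)).trans hU1
  have hU2C : 1000 * Real.log (2 * C) ≤ U := ((le_max_left _ _).trans (le_max_right _ _)).trans hU1
  have hUT : 1000 * (Real.log 2 + 3 * T) ≤ U := ((le_max_right _ _).trans (le_max_right _ _)).trans hU1
  have hUpos : 0 < U := by linarith
  have hlogU : Real.log U ≤ 1 / 4000 * U := hU₀ U hUU0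
  have hlogU0 : 0 ≤ Real.log U := Real.log_nonneg (by linarith)
  have hlogr1 : 1 ≤ Real.log r := by
    rw [← Real.log_exp 1]
    apply Real.log_le_log (Real.exp_pos _)
    have := Real.exp_one_lt_d9
    linarith
  have hW : Real.log (r * U) = Real.log r + Real.log U := Real.log_mul (by positivity) (by positivity)
  set V := VV r U with hVdef
  have hV : V = 1000 * (Real.log r + Real.log U) := by rw [hVdef, VV, hW]
  have hV1000 : 1000 ≤ V := by rw [hV]; linarith
  have hVpos : 0 < V := by linarith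
  have hVU : V ≤ U / 2 := by rw [hV]; linarith
  have hsU : 0 < Real.sqrt U := Real.sqrt_pos.2 hUpos
  have hsU2 : Real.sqrt U ^ 2 = U := Real.sq_sqrt hUpos.le
  have hsg : sg r U = V / (4 * Real.sqrt U) := rfl
  have hsgpos : 0 < sg r U := by rw [hsg]; positivity
  have hsg2 : sg r U ^ 2 = V ^ 2 / (16 * U) := by
    rw [hsg, div_pow, mul_pow, hsU2]; norm_num
  have hmpos : (0 : ℝ) < m := by exact_mod_cast hm
  have hvl : vl r m U = V / (100 * m) := rfl
  have hvlpos : 0 < vl r m U := by rw [hvl]; positivity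
  have hmvl : m * vl r m U = V / 100 := by rw [hvl]; field_simp
  -- exponentials
  have hexp2C : 2 * C ≤ Real.exp (U / 1000) := by
    rw [← Real.exp_log (show (0 : ℝ) < 2 * C by linarith)]
    exact Real.exp_le_exp.2 (by linarith)
  have hexpT : 2 * Real.exp (3 * T) ≤ Real.exp (U / 1000) := by
    have : 2 * Real.exp (3 * T) = Real.exp (Real.log 2 + 3 * T) := by
      rw [Real.exp_add, Real.exp_log (by norm_num)]
    rw [this]
    exact Real.exp_le_exp.2 (by linarith)
  have hUexp : U ≤ Real.exp (U / 1000) := by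
    calc U = Real.exp (Real.log U) := (Real.exp_log hUpos).symm
      _ ≤ _ := Real.exp_le_exp.2 (by linarith)
  have hsqU : Real.sqrt (2 * Real.pi) / sg r U ≤ U := by
    rw [hsg, div_div_eq_mul_div, div_le_iff₀ hVpos]
    have h1 : Real.sqrt (2 * Real.pi) ≤ 3 := by
      rw [show (3 : ℝ) = Real.sqrt 9 by rw [show (9 : ℝ) = 3 ^ 2 by norm_num]; exact (Real.sqrt_sq (by norm_num)).symm]
      apply Real.sqrt_le_sqrt
      have := Real.pi_lt_d2
      linarith
    have h2 : Real.sqrt U ≤ U := by nlinarith [Real.one_le_sqrt.2 (show (1 : ℝ) ≤ U by linarith)]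
    have h3 : Real.sqrt (2 * Real.pi) * (4 * Real.sqrt U) ≤ 3 * (4 * U) := by
      apply mul_le_mul h1 (by linarith) (by positivity) (by norm_num)
    nlinarith
  have h9 : 9 / (2 * sg r U ^ 2) ≤ U / 1000 := by
    rw [hsg2]
    have : 9 / (2 * (V ^ 2 / (16 * U))) = 72 * U / V ^ 2 := by field_simp; norm_num
    rw [this, div_le_div_iff₀ (by positivity) (by norm_num)]
    have : (1000 : ℝ) ^ 2 ≤ V ^ 2 := pow_le_pow_left₀ (by norm_num) hV1000 2
    nlinarith
  have hE3 : Real.exp (3 * T) * (2 * Real.exp (9 / (2 * sg r U ^ 2)) * (Real.sqrt (2 * Real.pi) / sg r U)) ≤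
      Real.exp (3 * (U / 1000)) := by
    have e1 : Real.exp (3 * T) * (2 * Real.exp (9 / (2 * sg r U ^ 2)) * (Real.sqrt (2 * Real.pi) / sg r U)) =
        (2 * Real.exp (3 * T)) * Real.exp (9 / (2 * sg r U ^ 2)) * (Real.sqrt (2 * Real.pi) / sg r U) := by ring
    have e2 : Real.exp (3 * (U / 1000)) = Real.exp (U / 1000) * Real.exp (U / 1000) * Real.exp (U / 1000) := by
      rw [← Real.exp_add, ← Real.exp_add]; congr 1; ring
    rw [e1, e2]
    have h1 : Real.exp (9 / (2 * sg r U ^ 2)) ≤ Real.exp (U / 1000) := Real.exp_le_exp.2 h9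
    have h2 : Real.sqrt (2 * Real.pi) / sg r U ≤ Real.exp (U / 1000) := hsqU.trans hUexp
    have h3 : 0 ≤ Real.sqrt (2 * Real.pi) / sg r U := by positivity
    exact mul_le_mul (mul_le_mul hexpT h1 (Real.exp_pos _).le (Real.exp_pos _).le) h2 h3 (by positivity)
  have hE3pos : 0 ≤ Real.exp (3 * T) * (2 * Real.exp (9 / (2 * sg r U ^ 2)) * (Real.sqrt (2 * Real.pi) / sg r U)) := by
    positivity
  have hx : 16 * U / V * V = 16 * U := by field_simp
  have hx32 : 32 ≤ 16 * U / V := by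
    rw [le_div_iff₀ hVpos]; linarith
  have hxU : 16 * U / V + 1 ≤ U := by
    have : 16 * U / V ≤ 16 * U / 1000 := div_le_div_of_nonneg_left (by linarith) (by norm_num) hV1000
    linarith
  refine ⟨hV1000, hVU, ⟨?_, ?_, hsgpos, hvlpos⟩, ?_, ?_, ⟨?_, ?_⟩, ?_, hU1000⟩
  · rw [hsg2]; field_simp; norm_num
  · rw [hmvl]; field_simp
  · -- (4)
    have hb1 : 1 ≤ C * r * (16 * U / V + 1) := by
      have h1 : 1 ≤ C * r := by nlinarith
      have h2 : 1 ≤ 16 * U / V + 1 := by linarith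
      nlinarith
    have hb2 : C * r * (16 * U / V + 1) ≤ (r * U) ^ 2 := by
      have h1 : C * r * (16 * U / V + 1) ≤ U * r * U := by
        apply mul_le_mul (mul_le_mul_of_nonneg_right hUC hrpos.le) hxU (by positivity) (by positivity)
      have h2 : U * r * U ≤ (r * U) ^ 2 := by
        have : (r * U) ^ 2 = r * (U * r * U) := by ring
        rw [this]
        exact le_mul_of_one_le_left (by positivity) (by linarith)
      linarith
    have hlb : Real.log (C * r * (16 * U / V + 1)) ≤ 2 * (V / 1000) := by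
      have h1 := Real.log_le_log (by linarith) hb2
      rw [Real.log_pow, hW] at h1
      have : V / 1000 = Real.log r + Real.log U := by rw [hV]; ring
      rw [this]
      simpa using h1
    have hlb0 : 0 ≤ Real.log (C * r * (16 * U / V + 1)) := Real.log_nonneg hb1
    have hpow : (C * r * (16 * U / V + 1)) ^ (16 * U / V + 4) ≤ Real.exp (64 * U / 1000) := by
      rw [Real.rpow_def_of_pos (by linarith)]
      apply Real.exp_le_exp.2
      have h1 : 16 * U / V + 4 ≤ 2 * (16 * U / V) := by linarith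
      calc Real.log (C * r * (16 * U / V + 1)) * (16 * U / V + 4)
          ≤ (2 * (V / 1000)) * (2 * (16 * U / V)) := mul_le_mul hlb h1 (by linarith) (by positivity)
        _ = 4 * (16 * U / V * V) / 1000 := by ring
        _ = 64 * U / 1000 := by rw [hx]; ring
    calc (C * r * (16 * U / V + 1)) ^ (16 * U / V + 4) * Real.exp (8 * U + 16 * U / 100) *
          (Real.exp (3 * T) * (2 * Real.exp (9 / (2 * sg r U ^ 2)) * (Real.sqrt (2 * Real.pi) / sg r U)))
        ≤ Real.exp (64 * U / 1000) * Real.exp (8 * U + 16 * U / 100) * Real.exp (3 * (U / 1000)) := by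
          apply mul_le_mul _ hE3 hE3pos (by positivity)
          exact mul_le_mul_of_nonneg_right hpow (Real.exp_pos _).le
      _ = Real.exp (64 * U / 1000 + (8 * U + 16 * U / 100) + 3 * (U / 1000)) := by
          rw [Real.exp_add (64 * U / 1000 + (8 * U + 16 * U / 100)), Real.exp_add (64 * U / 1000)]
      _ ≤ Real.exp (17 / 2 * U) := Real.exp_le_exp.2 (by linarith)
  · -- (5)
    have h1 : sg r U ^ 2 / 32 ≤ U / 1000 := by
      rw [hsg2]
      have : V ^ 2 / (16 * U) / 32 = V ^ 2 / (512 * U) := by rw [div_div]; congr 1; ring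
      rw [this, div_le_div_iff₀ (by positivity) (by norm_num)]
      nlinarith
    have h2 : m * vl r m U / 4 ≤ U / 800 := by rw [hmvl]; linarith
    have h3 : (r : ℝ) ^ 5 ≤ Real.exp (U / 800) := by
      have : (r : ℝ) ^ 5 = Real.exp (5 * Real.log r) := by
        rw [show (5 : ℝ) * Real.log r = ((5 : ℕ) : ℝ) * Real.log r by norm_num, Real.exp_nat_mul, Real.exp_log hrpos]
      rw [this]
      exact Real.exp_le_exp.2 (by linarith)
    have h4 : C ≤ Real.exp (U / 1000) := by linarith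
    calc C * (r : ℝ) ^ 5 * Real.exp (-(U / 4) + sg r U ^ 2 / 32 + m * vl r m U / 4) *
          (Real.exp (3 * T) * (2 * Real.exp (9 / (2 * sg r U ^ 2)) * (Real.sqrt (2 * Real.pi) / sg r U)))
        ≤ Real.exp (U / 1000) * Real.exp (U / 800) * Real.exp (-(U / 4) + U / 1000 + U / 800) *
            Real.exp (3 * (U / 1000)) := by
          apply mul_le_mul _ hE3 hE3pos (by positivity)
          apply mul_le_mul _ (Real.exp_le_exp.2 (by linarith)) (Real.exp_pos _).le (by positivity)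
          exact mul_le_mul h4 h3 (by positivity) (by positivity)
      _ = Real.exp (U / 1000 + U / 800 + (-(U / 4) + U / 1000 + U / 800) + 3 * (U / 1000)) := by
          simp only [Real.exp_add]
      _ ≤ Real.exp (-(U / 8)) := Real.exp_le_exp.2 (by linarith)
  · have h1 : C ≤ 1 / 2 * Real.exp (U / 1000) := by linarith
    calc C * Real.exp (-(6 * U)) ≤ 1 / 2 * Real.exp (U / 1000) * Real.exp (-(6 * U)) :=
          mul_le_mul_of_nonneg_right h1 (Real.exp_pos _).le
      _ = 1 / 2 * Real.exp (U / 1000 + -(6 * U)) := by rw [Real.exp_add]; ring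
      _ ≤ 1 / 2 * Real.exp (-(U / 10)) := by
          apply mul_le_mul_of_nonneg_left _ (by norm_num)
          exact Real.exp_le_exp.2 (by linarith)
  · have h1 : (2 : ℝ) ≤ Real.exp (U / 1000) := by linarith
    have h2 : Real.exp (-(U / 10)) = Real.exp (-(U / 8)) * Real.exp (U / 40) := by
      rw [← Real.exp_add]; congr 1; ring
    have h3 : Real.exp (U / 1000) ≤ Real.exp (U / 40) := Real.exp_le_exp.2 (by linarith)
    rw [h2]
    nlinarith [Real.exp_pos (-(U / 8))]
  · rw [hV]; linarith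

end Pool.Agent.SE
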