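import Pool.Agent.Lib.MP_9cfc0a_nt.SE.Defs
import Pool.Agent.Lib.MP_9cfc0a_nt.Mg.G011

set_option autoImplicit false

/-! Task D3: the choice of the cells and zeros. -/

namespace Pool.Agent.SE

open Complex MeasureTheory
open Pool.Agent.SK Pool.Agent.SD
open Pool.Agent.SO (prim NN pt pz MM kw)

/-- What is asked of the chosen zero `1/2 + iγ` near the centre `t`. -/
def okz (r : ℕ) [NeZero r] (χ : DirichletCharacter ℂ r) (T ε₁ t γ : ℝ) : Prop :=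
  |γ| ≤ T ∧ |γ - t| ≤ 2 / Real.log r ∧ χ.LFunction (1 / 2 + (γ : ℂ) * I) = 0 ∧
  deriv χ.LFunction (1 / 2 + (γ : ℂ) * I) ≠ 0 ∧
  ∀ s : ℂ, χ.LFunction s = 0 → ‖s - (1 / 2 + (γ : ℂ) * I)‖ < ε₁ / Real.log r → s = 1 / 2 + (γ : ℂ) * I

/-- D3a. PROOF. `w ∈ IZ χ T d` has `w.re = 0`, so `w = i w.im`; `good_iff` (SD/GA.lean) gives `L = 0`, `L' ≠ 0` at `1/2 + w`. Isolation: a zero `s` of `L` with
`‖s - (1/2+w)‖ < d ≤ 1/2` has `0 < s.re < 1`; so `Lam χ (s - 1/2) = 0` (as in SD/GA.lean: `EM.U5_comp`) and `iso`. -/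
theorem okz_of_IZ (r : ℕ) [NeZero r] (hr : 3 ≤ r) (χ : DirichletCharacter ℂ r) (hχ : χ ∈ prim r) (T ε₁ t : ℝ)
    (hd : ε₁ / Real.log r ≤ 1 / 2) (w : ℂ) (hw : w ∈ IZ χ T (ε₁ / Real.log r)) (ht : |w.im - t| ≤ 2 / Real.log r) :
    okz r χ T ε₁ t w.im := by
  classical
  have hr2 : 2 ≤ r := by omega
  unfold IZ at hw
  rw [Finset.mem_filter] at hw
  obtain ⟨hw1, hiso⟩ := hw
  have hSZ := (good_iff r hr2 χ hχ T w).1 hw1
  obtain ⟨h1, h2, h3, h4⟩ := hSZ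
  have hre : w.re = 0 := by
    have : (1 / 2 + w).re = 1 / 2 + w.re := by simp
    rw [this] at h1
    linarith
  have hwI : w = (w.im : ℂ) * I := by
    apply Complex.ext
    · simp [hre]
    · simp
  have him : (1 / 2 + w).im = w.im := by simp
  have hc : (1 / 2 : ℂ) + (w.im : ℂ) * I = 1 / 2 + w := by rw [← hwI]
  unfold okz
  rw [hc]
  refine ⟨by rw [← him]; exact h2, ht, h3, h4, fun s hs hd' => ?_⟩
  have e1 : s - (1 / 2 + w) = (s - 1 / 2) - w := by ring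
  have h5 : |((s - 1 / 2) - w).re| < 1 / 2 :=
    (Complex.abs_re_le_norm _).trans_lt (by rw [← e1]; linarith)
  have h6 : ((s - 1 / 2) - w).re = s.re - 1 / 2 := by simp [hre]
  rw [h6, abs_lt] at h5
  have h7 : s - 1 / 2 ∈ Z χ |s.im| := by
    rw [all_iff r hr2 χ hχ |s.im| (s - 1 / 2)]
    have e2 : (1 / 2 : ℂ) + (s - 1 / 2) = s := by ring
    rw [e2]
    exact ⟨by linarith [h5.1], by linarith [h5.2], le_rfl, hs⟩
  have h8 : Lam χ (s - 1 / 2) = 0 := ((mem_Z r hr2 χ hχ |s.im| (s - 1 / 2)).1 h7).1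
  by_contra hne
  have h9 : s - 1 / 2 ≠ w := by
    intro h
    apply hne
    rw [← h]
    ring
  have h10 := hiso _ h8 h9
  rw [← e1] at h10
  linarith

open scoped Classical in
/-- D3. PROOF. `ℓ = log r`, `J = ⌊ℓ⌋₊ ≥ ℓ/2`, `I = IZ χ T (ε₁/ℓ)`. `#I ≥ gF/4 ≥ (c₁/4) ℓ` (each term is `≤ 4`). To `w ∈ I` (`w = iγ`, `|γ| ≤ T`) attach
`j(w) = ⌊(γ + T) J⌋₊ < nj r T`: `0 ≤ γ - t_j < 1/J ≤ 2/ℓ`. At most `2/ε₁ + 1 ≤ 3/ε₁` elements of `I` have the same `j` (their imaginary parts lie in an interval of length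
`1/J ≤ 2/ℓ` and are pairwise `≥ ε₁/ℓ` apart by `iso`: sort, or pigeonhole on `⌊(γ - t_j) ℓ/ε₁⌋₊ ≤ 2/ε₁`). So the image of `j` has `≥ (c₁ ℓ/4)(ε₁/3)` elements; remove
the bad cells (`≤ ε₂ nj ≤ ε₂ (2T ℓ + 1) ≤ (c₁ε₁/50) ℓ` with `ε₂ = c₁ε₁/(100(T+1))`, `ℓ ≥ 1`): `≥ (c₁ε₁/20) ℓ` remain. For each such `j` choose a `w` (`okz_of_IZ`). -/
theorem select (T : ℕ) (hT : 1 ≤ T) (ε₁ c₁ : ℝ) (hε : 0 < ε₁) (hε1 : ε₁ ≤ 1) (hc : 0 < c₁) (hc1 : c₁ ≤ 1) (r : ℕ) [NeZero r]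
    (hr : Real.exp 4 ≤ r) (χ : DirichletCharacter ℂ r) (hχ : χ ∈ prim r) (b R K : ℝ) (m : ℕ)
    (hg : c₁ * Real.log r ≤ gF (IZ χ (T : ℝ) (ε₁ / Real.log r)))
    (hb : (((Finset.range (nj r T)).filter (fun j => ¬ gd r b R K m χ (tj r T j))).card : ℝ) ≤
      c₁ * ε₁ / (100 * (T + 1)) * (nj r T : ℝ)) :
    ∃ (J : Finset ℕ) (γ : ℕ → ℝ), J ⊆ Finset.range (nj r T) ∧
      (∀ j ∈ J, gd r b R K m χ (tj r T j) ∧ okz r χ T ε₁ (tj r T j) (γ j)) ∧
      c₁ * ε₁ / 20 * Real.log r ≤ (J.card : ℝ) := by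
  have hr0 : (0 : ℝ) < r := lt_of_lt_of_le (Real.exp_pos 4) hr
  have hl4 : 4 ≤ Real.log r := (Real.le_log_iff_exp_le hr0).2 hr
  have hr3 : 3 ≤ r := by
    have h1 : (4 : ℝ) + 1 ≤ Real.exp 4 := Real.add_one_le_exp 4
    have h2 : (3 : ℝ) ≤ r := by linarith
    exact_mod_cast h2
  obtain ⟨ℓ, hℓ⟩ : ∃ ℓ : ℝ, ℓ = Real.log r := ⟨_, rfl⟩
  rw [← hℓ] at hg hl4 ⊢
  obtain ⟨N, hN⟩ : ∃ N : ℕ, N = ⌊ℓ⌋₊ := ⟨_, rfl⟩
  have hN1 : (N : ℝ) ≤ ℓ := by rw [hN]; exact Nat.floor_le (by linarith)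
  have hN2 : ℓ < N + 1 := by rw [hN]; exact Nat.lt_floor_add_one ℓ
  have hN0 : (0 : ℝ) < N := by linarith
  have hNℓ : 1 / (N : ℝ) ≤ 2 / ℓ := by
    rw [div_le_div_iff₀ hN0 (by linarith)]
    linarith
  have hTR : (1 : ℝ) ≤ T := by exact_mod_cast hT
  obtain ⟨F, hF⟩ : ∃ F : Finset ℂ, F = IZ χ (T : ℝ) (ε₁ / ℓ) := ⟨_, rfl⟩
  rw [← hF] at hg
  have hFmem : ∀ w ∈ F, w.re = 0 ∧ |w.im| ≤ T ∧ Lam χ w = 0 ∧ iso χ (ε₁ / ℓ) w := by
    intro w hw
    rw [hF] at hw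
    unfold IZ at hw
    rw [Finset.mem_filter] at hw
    obtain ⟨h1, h2⟩ := hw
    unfold GZ at h1
    rw [Finset.mem_filter] at h1
    have h3 := (mem_Z r (by omega) χ hχ T w).1 h1.1
    exact ⟨h1.2.1, h3.2, h3.1, h2⟩
  -- the size of `F`
  have hcard : c₁ * ℓ ≤ 4 * (F.card : ℝ) := by
    refine hg.trans ?_
    unfold gF
    calc ∑ w ∈ F, 1 / (1 / 4 + w.im ^ 2) ≤ ∑ w ∈ F, (4 : ℝ) := by
          refine Finset.sum_le_sum fun w _ => ?_
          rw [div_le_iff₀ (by positivity)]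
          nlinarith [sq_nonneg w.im]
      _ = 4 * (F.card : ℝ) := by rw [Finset.sum_const, nsmul_eq_mul]; ring
  -- the cells
  obtain ⟨jm, hjm⟩ : ∃ jm : ℂ → ℕ, jm = fun w : ℂ => ⌊(w.im + (T : ℝ)) * (N : ℝ)⌋₊ :=
    ⟨_, rfl⟩
  have hjm' : ∀ w : ℂ, jm w = ⌊(w.im + (T : ℝ)) * (N : ℝ)⌋₊ := fun w => by rw [hjm]
  have htj : ∀ j, tj r T j = -(T : ℝ) + (j : ℝ) / N := by
    intro j
    unfold tj
    rw [← hℓ, ← hN]
  have hnj : nj r T = 2 * T * N + 1 := by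
    unfold nj
    rw [← hℓ, ← hN]
  have hpos : ∀ w ∈ F, 0 ≤ (w.im + T) * N := by
    intro w hw
    have h1 := abs_le.1 (hFmem w hw).2.1
    exact mul_nonneg (by linarith [h1.1]) hN0.le
  have hlt : ∀ w ∈ F, jm w < nj r T := by
    intro w hw
    rw [hjm', hnj]
    have h1 := abs_le.1 (hFmem w hw).2.1
    have h2 : (w.im + T) * N ≤ ((2 * T * N : ℕ) : ℝ) := by
      push_cast
      exact mul_le_mul_of_nonneg_right (by linarith [h1.2]) hN0.le
    have h3 := Nat.floor_le_floor h2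
    rw [Nat.floor_natCast] at h3
    omega
  have hnear : ∀ w ∈ F, 0 ≤ w.im - tj r T (jm w) ∧ w.im - tj r T (jm w) < 1 / N := by
    intro w hw
    rw [htj]
    have h1 : ((jm w : ℕ) : ℝ) ≤ (w.im + T) * N := by
      rw [hjm']
      exact Nat.floor_le (hpos w hw)
    have h2 : (w.im + T) * N < (jm w : ℝ) + 1 := by
      rw [hjm']
      exact Nat.lt_floor_add_one _
    have h3 : (jm w : ℝ) / N ≤ w.im + T := by
      rw [div_le_iff₀ hN0]
      exact h1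
    have h4 : w.im + T < (jm w : ℝ) / N + 1 / N := by
      rw [← add_div, lt_div_iff₀ hN0]
      exact h2
    constructor
    · linarith
    · linarith
  -- the fibres
  obtain ⟨Q, hQ⟩ : ∃ Q : ℕ, Q = ⌊2 / ε₁⌋₊ + 1 := ⟨_, rfl⟩
  have hQ3 : (Q : ℝ) ≤ 3 / ε₁ := by
    have h1 : ((⌊2 / ε₁⌋₊ : ℕ) : ℝ) ≤ 2 / ε₁ := Nat.floor_le (by positivity)
    have h2 : 1 ≤ 1 / ε₁ := by
      rw [le_div_iff₀ hε]
      linarith
    have h3 : (3 : ℝ) / ε₁ = 2 / ε₁ + 1 / ε₁ := by ring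
    rw [hQ, h3]
    push_cast
    linarith
  have hℓε : 0 < ℓ / ε₁ := by
    have : 0 < ℓ := by linarith
    positivity
  have hfib : ∀ j ∈ F.image jm, (F.filter (fun w => jm w = j)).card ≤ Q := by
    intro j _
    have hmaps : ∀ w ∈ F.filter (fun w => jm w = j), ⌊(w.im - tj r T j) * (ℓ / ε₁)⌋₊ ∈ Finset.range Q := by
      intro w hw
      rw [Finset.mem_filter] at hw
      obtain ⟨hwF, hwj⟩ := hw
      have h1 := hnear w hwF
      rw [hwj] at h1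
      rw [Finset.mem_range, hQ, Nat.lt_succ_iff]
      refine Nat.floor_le_floor ?_
      have h2 : (w.im - tj r T j) * (ℓ / ε₁) ≤ (2 / ℓ) * (ℓ / ε₁) :=
        mul_le_mul_of_nonneg_right (h1.2.le.trans hNℓ) hℓε.le
      refine h2.trans (le_of_eq ?_)
      have : ℓ ≠ 0 := by linarith
      field_simp
    have hinj : Set.InjOn (fun w : ℂ => ⌊(w.im - tj r T j) * (ℓ / ε₁)⌋₊) (F.filter (fun w => jm w = j)) := by
      intro w hw w' hw' heq
      rw [Finset.mem_coe, Finset.mem_filter] at hw hw'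
      obtain ⟨hwF, hwj⟩ := hw
      obtain ⟨hwF', hwj'⟩ := hw'
      have h1 := hnear w hwF
      have h1' := hnear w' hwF'
      rw [hwj] at h1
      rw [hwj'] at h1'
      have h2 : 0 ≤ (w.im - tj r T j) * (ℓ / ε₁) := mul_nonneg h1.1 hℓε.le
      have h2' : 0 ≤ (w'.im - tj r T j) * (ℓ / ε₁) := mul_nonneg h1'.1 hℓε.le
      have h3 := Nat.floor_le h2
      have h4 := Nat.lt_floor_add_one ((w.im - tj r T j) * (ℓ / ε₁))
      have h3' := Nat.floor_le h2'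
      have h4' := Nat.lt_floor_add_one ((w'.im - tj r T j) * (ℓ / ε₁))
      simp only at heq
      rw [← heq] at h3' h4'
      have h5 : |(w'.im - w.im) * (ℓ / ε₁)| < 1 := by
        rw [abs_lt]
        constructor
        · nlinarith
        · nlinarith
      have h6 : |w'.im - w.im| < ε₁ / ℓ := by
        rw [abs_mul, abs_of_pos hℓε] at h5
        rw [lt_div_iff₀ (by linarith)]
        have h7 : |w'.im - w.im| * (ℓ / ε₁) * ε₁ < 1 * ε₁ := mul_lt_mul_of_pos_right h5 hε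
        have h8 : |w'.im - w.im| * (ℓ / ε₁) * ε₁ = |w'.im - w.im| * ℓ := by
          field_simp
        linarith
      obtain ⟨a1, -, -, a4⟩ := hFmem w hwF
      obtain ⟨b1, -, b3, -⟩ := hFmem w' hwF'
      by_contra hne
      have h7 := a4 w' b3 (fun h => hne h.symm)
      have h8 : ‖w' - w‖ ≤ |w'.im - w.im| := by
        have h9 := Complex.norm_le_abs_re_add_abs_im (w' - w)
        rw [Complex.sub_re, Complex.sub_im, a1, b1, sub_zero, abs_zero, zero_add] at h9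
        exact h9
      linarith
    have := Finset.card_le_card_of_injOn _ hmaps hinj
    rwa [Finset.card_range] at this
  have himg : (F.card : ℝ) ≤ (Q : ℝ) * ((F.image jm).card : ℝ) := by
    have := Finset.card_le_mul_card_image F Q hfib
    exact_mod_cast this
  have himg2 : c₁ * ε₁ * ℓ / 12 ≤ ((F.image jm).card : ℝ) := by
    have h1 : (F.card : ℝ) ≤ 3 / ε₁ * ((F.image jm).card : ℝ) :=
      himg.trans (mul_le_mul_of_nonneg_right hQ3 (Nat.cast_nonneg _))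
    have h2 : (F.card : ℝ) * ε₁ ≤ 3 * ((F.image jm).card : ℝ) := by
      calc (F.card : ℝ) * ε₁ ≤ (3 / ε₁ * ((F.image jm).card : ℝ)) * ε₁ :=
            mul_le_mul_of_nonneg_right h1 hε.le
        _ = 3 * ((F.image jm).card : ℝ) := by field_simp
    have h3 : c₁ * ℓ * ε₁ ≤ 4 * (F.card : ℝ) * ε₁ := mul_le_mul_of_nonneg_right hcard hε.le
    linarith
  -- the good cells
  obtain ⟨J, hJ⟩ : ∃ J : Finset ℕ, J = (F.image jm).filter (fun j => gd r b R K m χ (tj r T j)) := ⟨_, rfl⟩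
  have hbad : (((F.image jm).filter (fun j => ¬ gd r b R K m χ (tj r T j))).card : ℝ) ≤
      c₁ * ε₁ * ℓ / 50 := by
    have h1 : ((F.image jm).filter (fun j => ¬ gd r b R K m χ (tj r T j))).card ≤
        ((Finset.range (nj r T)).filter (fun j => ¬ gd r b R K m χ (tj r T j))).card := by
      refine Finset.card_le_card (Finset.filter_subset_filter _ ?_)
      intro j hj
      obtain ⟨w, hw, rfl⟩ := Finset.mem_image.1 hj
      exact Finset.mem_range.2 (hlt w hw)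
    have h2 : (nj r T : ℝ) ≤ 2 * (T + 1) * ℓ := by
      rw [hnj]
      push_cast
      nlinarith
    calc (((F.image jm).filter (fun j => ¬ gd r b R K m χ (tj r T j))).card : ℝ)
        ≤ (((Finset.range (nj r T)).filter (fun j => ¬ gd r b R K m χ (tj r T j))).card : ℝ) := by
          exact_mod_cast h1
      _ ≤ c₁ * ε₁ / (100 * (T + 1)) * (nj r T : ℝ) := hb
      _ ≤ c₁ * ε₁ / (100 * (T + 1)) * (2 * (T + 1) * ℓ) := by gcongr
      _ = c₁ * ε₁ * ℓ / 50 := by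
          have : (T : ℝ) + 1 ≠ 0 := by positivity
          field_simp
          ring
  have hsplit : ((F.image jm).card : ℝ) = (J.card : ℝ) +
      (((F.image jm).filter (fun j => ¬ gd r b R K m χ (tj r T j))).card : ℝ) := by
    rw [hJ]
    have := Finset.card_filter_add_card_filter_not (s := F.image jm) (fun j => gd r b R K m χ (tj r T j))
    exact_mod_cast this.symm
  -- the zeros
  have hex : ∀ j, ∃ x : ℝ, j ∈ J → okz r χ T ε₁ (tj r T j) x := by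
    intro j
    by_cases hj : j ∈ J
    · rw [hJ, Finset.mem_filter] at hj
      obtain ⟨w, hw, rfl⟩ := Finset.mem_image.1 hj.1
      refine ⟨w.im, fun _ => ?_⟩
      have h1 := hnear w hw
      refine okz_of_IZ r hr3 χ hχ T ε₁ (tj r T (jm w)) ?_ w ?_ ?_
      · rw [← hℓ, div_le_iff₀ (by linarith)]
        linarith
      · rw [← hℓ, ← hF]
        exact hw
      · rw [← hℓ, abs_of_nonneg h1.1]
        exact h1.2.le.trans hNℓ
    · exact ⟨0, fun h => absurd h hj⟩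
  choose γ hγ using hex
  refine ⟨J, γ, ?_, fun j hj => ⟨?_, hγ j hj⟩, ?_⟩
  · intro j hj
    rw [hJ, Finset.mem_filter] at hj
    obtain ⟨w, hw, rfl⟩ := Finset.mem_image.1 hj.1
    exact Finset.mem_range.2 (hlt w hw)
  · rw [hJ, Finset.mem_filter] at hj
    exact hj.2
  · have : 0 ≤ c₁ * ε₁ * ℓ := by
      have : 0 ≤ ℓ := by linarith
      positivity
    linarith

end Pool.Agent.SE
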