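import Pool.Agent.Lib.MP_9cfc0a_nt.SE.Defs
import Pool.Agent.Lib.MP_9cfc0a_nt.Mg.G052
import Pool.Agent.Lib.MP_9cfc0a_nt.Mg.G014
import Pool.Agent.Lib.MP_9cfc0a_nt.Mg.G005

set_option autoImplicit false

/-! Task C3: the lower bound for `Gu` with the number of isolated zeros. -/

namespace Pool.Agent.SE

open Complex MeasureTheory
open Pool.Agent.SK Pool.Agent.SD
open Pool.Agent.SO (prim NN)

open scoped Classical in
/-- The number of good zeros in the band which are isolated in the band. -/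
noncomputable def isoN {r : ℕ} [NeZero r] (χ : DirichletCharacter ℂ r) (T h u d : ℝ) : ℝ :=
  ((((Z χ T).filter (fun w => |w.im - u| ≤ h)).filter (fun z => z.re = 0 ∧ mu χ z = 1 ∧
    ∀ w ∈ (Z χ T).filter (fun w => |w.im - u| ≤ h), w ≠ z → d ≤ ‖w - z‖)).card : ℝ)

/-- C3a. PROOF. As `G_lower2` in SD/LB.lean (COPY it), with `key_iso Y s κ d` in place of `key_mult` (same `S`, `c`, `m = mu χ`; drop `NU_eq`). The new term
`32 κ |S|`: `|S| ≤ n ≤ 3 L + C₀ + 4` (`hcard`, `hn2` in that proof). -/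
theorem G_lower3 (r : ℕ) [NeZero r] (hr : 3 ≤ r) (χ : DirichletCharacter ℂ r) (hχ : χ ∈ prim r)
    (T W C₀ Y₀ T₁ u h η δ₀ N Y p κ d : ℝ) (hW : 1 ≤ W) (hY : 0 < Y) (hYY : Y ≤ Y₀) (hh : 0 ≤ h) (hh1 : h ≤ 1)
    (hη : 0 ≤ η) (hη1 : η ≤ 1) (hδ0 : 0 ≤ δ₀) (hδ : ∀ w ∈ Z χ T, |w.re| ≤ δ₀) (hWδ : W ^ 2 * δ₀ ≤ 1)
    (hN : ∑ w ∈ Z χ T, mu χ w ≤ N) (hEF : EFp χ T W C₀ Y₀ T₁) (hC₀ : 0 ≤ C₀) (hu : |u| + h + 2 * η ≤ T₁)
    (hp1 : ‖PU χ W (u - h) (u + h) 0‖ ≤ p) (hp2 : ‖PU χ W (u - h - 2 * η) (u + h + 2 * η) 0‖ ≤ p)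
    (hp3 : p ≤ Real.log r)
    (hs1 : Real.log r * N * Real.exp (-(W ^ 2 * η ^ 2 / 2) + δ₀ * Y) ≤ 1)
    (hs2 : N * Real.exp (-(W ^ 2 / 2)) ≤ 1)
    (hd : 0 < d) (hκ : 2 * d * Y ≤ κ) (hκ1 : κ ≤ 1 / 2) :
    Y / 2 * (2 * (h / Real.pi * Real.log r) - isoN χ T (h + η) u d - 2 * η * Real.log r - 12 * p - 20 * C₀ - 100 -
        32 * κ * (3 * Real.log r + C₀ + 4)) ≤
      ∫ t in (0 : ℝ)..Y, (1 - t / Y) * ‖Gu χ T W (u - h) (u + h) t‖ ^ 2 := by
  have hW0 : 0 < W := by linarith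
  have hW2 : W ≤ W ^ 2 := by nlinarith
  set L : ℝ := Real.log r with hL
  have hL1 : 1 ≤ L := by
    rw [hL, Real.le_log_iff_exp_le (by positivity)]
    have : (3 : ℝ) ≤ r := by exact_mod_cast hr
    linarith [Real.exp_one_lt_d9]
  have hmu : ∀ w, 0 ≤ mu χ w := fun w => mu_nonneg r χ w
  have hN0 : 0 ≤ N := (Finset.sum_nonneg fun w _ => hmu w).trans hN
  have hWδ1 : W * δ₀ ≤ 1 := (mul_le_mul_of_nonneg_right hW2 hδ0).trans hWδ
  have hδY : 0 ≤ δ₀ * Y := by positivity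
  set E : ℝ := Real.exp (-(W ^ 2 * η ^ 2 / 2) + δ₀ * Y) with hE
  have hE0 : 0 < E := Real.exp_pos _
  have heE : Real.exp (-(W ^ 2 * η ^ 2 / 2)) ≤ E := by
    apply Real.exp_le_exp.mpr
    linarith
  set s : ℝ := N * E with hs
  have hs0 : 0 ≤ s := by positivity
  have hNe : N * Real.exp (-(W ^ 2 * η ^ 2 / 2)) ≤ s := mul_le_mul_of_nonneg_left heE hN0
  have hsL : s * L ≤ 1 := by
    calc s * L = L * N * E := by rw [hs]; ring
      _ ≤ 1 := hs1
  have hs1' : s ≤ 1 := by nlinarith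
  have hκ0 : 0 ≤ κ := le_trans (by positivity) hκ
  unfold isoN
  set S := (Z χ T).filter (fun w => |w.im - u| ≤ h + η) with hS
  set c : ℂ → ℂ := fun w => (mu χ w : ℂ) * FI W (u - h) (u + h) w with hc
  have hGc : Continuous fun t : ℝ => Gu χ T W (u - h) (u + h) t := by
    unfold Gu
    fun_prop
  have hSmem : ∀ w ∈ S, Lam χ w = 0 ∧ |w.im| ≤ T ∧ |w.im - u| ≤ h + η := by
    intro w hw
    rw [hS, Finset.mem_filter] at hw
    have h2 := (mem_Z r (by omega) χ hχ T w).mp hw.1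
    exact ⟨h2.1, h2.2, hw.2⟩
  have hSsym : ∀ z ∈ S, -((starRingEnd ℂ) z) ∈ S := by
    intro w hw
    obtain ⟨h1, h2, h3⟩ := hSmem w hw
    have him : (-((starRingEnd ℂ) w)).im = w.im := by simp
    rw [hS, Finset.mem_filter, mem_Z r (by omega) χ hχ, him]
    exact ⟨⟨(Lam_zero_symm (by omega) χ (prim_spec r (by omega) χ hχ).1 w).2 h1, h2⟩, h3⟩
  have hkey := key_iso Y s κ d hY hd hκ hκ1 S hSsym (mu χ)
    (fun z hz => mu_cases r (by omega) χ hχ z (hSmem z hz).1)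
    (fun z => mu_symm r (by omega) χ hχ z) c
    (fun z _ hz0 hz1 => by
      have h1 := FI_line W (u - h) (u + h) hW0 (by linarith) z hz0
      have h2 : c z = FI W (u - h) (u + h) z := by
        show (mu χ z : ℂ) * FI W (u - h) (u + h) z = _
        rw [hz1]
        simp
      rw [h2]
      exact h1)
    (fun t => Gu χ T W (u - h) (u + h) t) hGc (fun t ht =>
      out_band r χ T W u h η δ₀ N Y hW hh hη hδ hWδ1 hN t ht) (fun t _ _ => by
      rw [Gu_neg r (by omega) χ hχ]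
      exact RCLike.norm_conj _)
  refine le_trans (mul_le_mul_of_nonneg_left ?_ (by positivity)) hkey
  have hcard : (S.card : ℝ) ≤ ∑ w ∈ S, mu χ w := by
    calc (S.card : ℝ) = ∑ _w ∈ S, (1 : ℝ) := by simp
      _ ≤ ∑ w ∈ S, mu χ w := by
          refine Finset.sum_le_sum fun w hw => ?_
          exact one_le_mu r (by omega) χ hχ w (hSmem w hw).1
  have hY0 : 0 ≤ Y₀ := by linarith
  have hn := band_count r χ T W C₀ Y₀ T₁ u h η δ₀ N hW hY0 hh hη hδ hWδ hN hEF hu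
  rw [← hS, ← hL] at hn
  have htr := trace_lower r χ T W C₀ Y₀ T₁ u h η δ₀ N hW hY0 hh hη hδ hWδ1 hN hEF (by linarith)
  rw [← hS, ← hL] at htr
  change _ ≤ (∑ w ∈ S, c w).re at htr
  set R : ℝ := (∑ w ∈ S, c w).re with hR
  set n : ℝ := ∑ w ∈ S, mu χ w with hndef
  have hpi := Real.pi_gt_three
  have hp0 : 0 ≤ p := (norm_nonneg _).trans hp1
  have hn1 : n ≤ (h + 2 * η) / Real.pi * L + 2 * p + C₀ + 4 := by linarith
  have hq : (h + 2 * η) / Real.pi ≤ 1 := by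
    rw [div_le_one (by linarith)]
    linarith
  have hq2 : (h + 2 * η) / Real.pi * L ≤ L := by nlinarith
  have hn2 : n ≤ 3 * L + C₀ + 4 := by linarith
  have hsn : s * n ≤ 7 + C₀ := by
    calc s * n ≤ s * (3 * L + C₀ + 4) := mul_le_mul_of_nonneg_left hn2 hs0
      _ = 3 * (s * L) + s * C₀ + 4 * s := by ring
      _ ≤ 3 * 1 + 1 * C₀ + 4 * 1 := by gcongr
      _ = 7 + C₀ := by ring
  have hcs : s * (S.card : ℝ) ≤ 7 + C₀ := (mul_le_mul_of_nonneg_left hcard hs0).trans hsn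
  have h2η : 2 * η / Real.pi * L ≤ η * L := by
    have : 2 * η / Real.pi ≤ η := by
      rw [div_le_iff₀ (by linarith)]
      nlinarith
    nlinarith
  have hsum : (h + 2 * η) / Real.pi * L = h / Real.pi * L + 2 * η / Real.pi * L := by ring
  have hR1 : h / Real.pi * L - 2 * p - C₀ - 1 ≤ R := by linarith
  have hn3 : n ≤ h / Real.pi * L + η * L + 2 * p + C₀ + 4 := by linarith
  have hcs4 : 4 * s * (S.card : ℝ) ≤ 4 * (7 + C₀) := by
    have e : 4 * s * (S.card : ℝ) = 4 * (s * (S.card : ℝ)) := by ring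
    rw [e]
    linarith
  have hcκ : 32 * κ * (S.card : ℝ) ≤ 32 * κ * (3 * L + C₀ + 4) :=
    mul_le_mul_of_nonneg_left (hcard.trans hn2) (by positivity)
  have he : (4 * s + 32 * κ) * (S.card : ℝ) = 4 * s * (S.card : ℝ) + 32 * κ * (S.card : ℝ) := by ring
  rw [he]
  linarith

/-- C3b. The zeros isolated in the band are isolated, or close to the edge of the band. PROOF. Let `w` be counted in `isoN χ T (h+η) u d` and not in `IZ χ T d`: it is in `GZ χ T`, so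
there is a zero `w' ≠ w` with `‖w' - w‖ < d`; `|w'.im| ≤ |w.im| + d ≤ T`, so `w' ∈ Z χ T` (`mem_Z`) and `w'` is not in the band: `|w'.im - u| > h + η`, hence
`|w.im - u| > h + η - d ≥ h + η/2`. So `w` (with `mu = 1`) is counted in `NW .. (h+η) u - NW .. (h+η/2) u` (`mu_nonneg`). -/
theorem isoN_le (r : ℕ) [NeZero r] (hr : 2 ≤ r) (χ : DirichletCharacter ℂ r) (hχ : χ ∈ prim r) (T h η u d : ℝ)
    (hh : 0 ≤ h) (hη : 0 ≤ η) (hd : d ≤ η / 2) (hT : |u| + h + η + d ≤ T) :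
    isoN χ T (h + η) u d ≤ NU (IZ χ T d) (h + η) u +
      (NW (Z χ T) (mu χ) (h + η) u - NW (Z χ T) (mu χ) (h + η / 2) u) := by
  classical
  unfold isoN NU NW
  set B1 := (Z χ T).filter (fun w => |w.im - u| ≤ h + η) with hB1
  set B2 := (Z χ T).filter (fun w => |w.im - u| ≤ h + η / 2) with hB2
  have hB21 : B2 ⊆ B1 := by
    intro w hw
    rw [hB2, Finset.mem_filter] at hw
    rw [hB1, Finset.mem_filter]
    exact ⟨hw.1, by linarith [hw.2]⟩
  have hsum : ∑ w ∈ B1 \ B2, mu χ w = ∑ w ∈ B1, mu χ w - ∑ w ∈ B2, mu χ w := by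
    rw [← Finset.sum_sdiff hB21]
    ring
  rw [← hsum]
  have hsub : B1.filter (fun z => z.re = 0 ∧ mu χ z = 1 ∧ ∀ w ∈ B1, w ≠ z → d ≤ ‖w - z‖) ⊆
      (IZ χ T d).filter (fun w => |w.im - u| ≤ h + η) ∪ (B1 \ B2) := by
    intro z hz
    rw [Finset.mem_filter] at hz
    obtain ⟨hz1, hz2, hz3, hz4⟩ := hz
    rw [hB1, Finset.mem_filter] at hz1
    rw [Finset.mem_union]
    by_cases hiso : iso χ d z
    · left
      unfold IZ GZ
      rw [Finset.mem_filter, Finset.mem_filter, Finset.mem_filter]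
      exact ⟨⟨⟨hz1.1, hz2, hz3⟩, hiso⟩, hz1.2⟩
    · right
      unfold iso at hiso
      push Not at hiso
      obtain ⟨w, hw0, hwz, hwd⟩ := hiso
      rw [Finset.mem_sdiff, hB1, Finset.mem_filter]
      refine ⟨hz1, fun hz5 => ?_⟩
      rw [hB2, Finset.mem_filter] at hz5
      have him : |w.im - z.im| ≤ ‖w - z‖ := by
        have := Complex.abs_im_le_norm (w - z)
        rwa [Complex.sub_im] at this
      have h1 : |w.im - u| ≤ h + η := by
        have h2 := abs_add_le (w.im - z.im) (z.im - u)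
        have h3 : w.im - z.im + (z.im - u) = w.im - u := by ring
        rw [h3] at h2
        linarith [hz5.2]
      have h4 : |w.im| ≤ T := by
        have h2 := abs_add_le (w.im - u) u
        have h3 : w.im - u + u = w.im := by ring
        rw [h3] at h2
        have h5 : 0 ≤ d := by linarith [norm_nonneg (w - z)]
        linarith
      have hwB : w ∈ B1 := by
        rw [hB1, Finset.mem_filter, mem_Z r hr χ hχ T w]
        exact ⟨⟨hw0, h4⟩, h1⟩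
      exact absurd (hz4 w hwB hwz) (not_le.mpr hwd)
  have hcard2 : ((B1 \ B2).card : ℝ) ≤ ∑ w ∈ B1 \ B2, mu χ w := by
    calc ((B1 \ B2).card : ℝ) = ∑ _w ∈ B1 \ B2, (1 : ℝ) := by simp
      _ ≤ ∑ w ∈ B1 \ B2, mu χ w := by
          refine Finset.sum_le_sum fun w hw => ?_
          have hw1 := (Finset.mem_sdiff.mp hw).1
          rw [hB1, Finset.mem_filter] at hw1
          exact one_le_mu r hr χ hχ w ((mem_Z r hr χ hχ T w).mp hw1.1).1
  have hc1 := Finset.card_le_card hsub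
  have hc2 := hc1.trans (Finset.card_union_le _ _)
  have hc3 : ((B1.filter (fun z => z.re = 0 ∧ mu χ z = 1 ∧ ∀ w ∈ B1, w ≠ z → d ≤ ‖w - z‖)).card : ℝ) ≤
      (((IZ χ T d).filter (fun w => |w.im - u| ≤ h + η)).card : ℝ) + ((B1 \ B2).card : ℝ) := by
    exact_mod_cast hc2
  refine le_trans (le_of_eq ?_) (hc3.trans (by linarith))
  congr 2

/-- C3c. As `band_eq` in SD/LA.lean. -/
theorem IZ_band_eq (r : ℕ) [NeZero r] (hr : 2 ≤ r) (χ : DirichletCharacter ℂ r) (hχ : χ ∈ prim r) (T T' h u d : ℝ)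
    (hT : |u| + h ≤ T) (hT' : |u| + h ≤ T') : NU (IZ χ T d) h u = NU (IZ χ T' d) h u := by
  have hc : ∀ w : ℂ, |w.im - u| ≤ h → |w.im| ≤ |u| + h := by
    intro w hw
    have h1 : |w.im| ≤ |w.im - u| + |u| := by
      have h2 := abs_add_le (w.im - u) u
      rwa [sub_add_cancel] at h2
    linarith
  have hs : (IZ χ T d).filter (fun w => |w.im - u| ≤ h) = (IZ χ T' d).filter (fun w => |w.im - u| ≤ h) := by
    ext w
    unfold IZ GZ
    simp only [Finset.mem_filter]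
    rw [mem_Z r hr χ hχ T w, mem_Z r hr χ hχ T' w]
    constructor
    · rintro ⟨⟨⟨⟨h1, _⟩, h3⟩, h5⟩, h4⟩
      exact ⟨⟨⟨⟨h1, (hc w h4).trans hT'⟩, h3⟩, h5⟩, h4⟩
    · rintro ⟨⟨⟨⟨h1, _⟩, h3⟩, h5⟩, h4⟩
      exact ⟨⟨⟨⟨h1, (hc w h4).trans hT⟩, h3⟩, h5⟩, h4⟩
  unfold NU
  rw [hs]

/-- C3d. As `band_eq`, for all zeros with multiplicity. -/
theorem NW_band_eq (r : ℕ) [NeZero r] (hr : 2 ≤ r) (χ : DirichletCharacter ℂ r) (hχ : χ ∈ prim r) (T T' h u : ℝ)
    (hT : |u| + h ≤ T) (hT' : |u| + h ≤ T') : NW (Z χ T) (mu χ) h u = NW (Z χ T') (mu χ) h u := by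
  have hc : ∀ w : ℂ, |w.im - u| ≤ h → |w.im| ≤ |u| + h := by
    intro w hw
    have h1 : |w.im| ≤ |w.im - u| + |u| := by
      have h2 := abs_add_le (w.im - u) u
      rwa [sub_add_cancel] at h2
    linarith
  have hs : (Z χ T).filter (fun w => |w.im - u| ≤ h) = (Z χ T').filter (fun w => |w.im - u| ≤ h) := by
    ext w
    simp only [Finset.mem_filter]
    rw [mem_Z r hr χ hχ T w, mem_Z r hr χ hχ T' w]
    constructor
    · rintro ⟨⟨h1, _⟩, h4⟩
      exact ⟨⟨h1, (hc w h4).trans hT'⟩, h4⟩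
    · rintro ⟨⟨h1, _⟩, h4⟩
      exact ⟨⟨h1, (hc w h4).trans hT⟩, h4⟩
  unfold NW
  rw [hs]

end Pool.Agent.SE
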