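import Pool.Agent.Lib.MP_9cfc0a_nt.SD.Defs
import Pool.Agent.Lib.MP_9cfc0a_nt.SO.Defs2

set_option autoImplicit false

/-! Shared definitions of the campaign SE (MP_9cfc0a: every scale, exact annihilation of the other zeros). -/

namespace Pool.Agent.SE

open Complex MeasureTheory
open Pool.Agent.SK Pool.Agent.SD
open Pool.Agent.SO (prim NN pt pz MM kw)

/-- `sinh ζ / ζ` (entire, value `1` at `0`). -/
noncomputable def shc (ζ : ℂ) : ℂ := dslope Complex.sinh 0 ζ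

/-- The kernel `exp(σ² ζ²/2) (sinh(v ζ)/(v ζ))^m`. -/
noncomputable def Ek (σ v : ℝ) (m : ℕ) (ζ : ℂ) : ℂ :=
  Complex.exp (((σ ^ 2 / 2 : ℝ) : ℂ) * ζ ^ 2) * shc ((v : ℂ) * ζ) ^ m

/-- The half-length of the window, `U = log X`. -/
noncomputable def VV (r : ℕ) (U : ℝ) : ℝ := 1000 * Real.log (r * U)

/-- The width of the Gaussian: `σ² = V²/(16 U)`. -/
noncomputable def sg (r : ℕ) (U : ℝ) : ℝ := VV r U / (4 * Real.sqrt U)

/-- The length of the localiser. -/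
noncomputable def vl (r m : ℕ) (U : ℝ) : ℝ := VV r U / (100 * m)

/-- The transform `L(1/2 + z) Ek(z - iγ)/(z - iγ)` of the test function at the zero `1/2 + iγ` (entire). -/
noncomputable def hh {r : ℕ} [NeZero r] (χ : DirichletCharacter ℂ r) (m : ℕ) (U γ : ℝ) (z : ℂ) : ℂ :=
  dslope (fun z : ℂ => χ.LFunction (1 / 2 + z)) ((γ : ℂ) * I) z * Ek (sg r U) (vl r m U) m (z - (γ : ℂ) * I)

/-- The test function at the zero `1/2 + iγ`. -/
noncomputable def hk {r : ℕ} [NeZero r] (χ : DirichletCharacter ℂ r) (m : ℕ) (U γ v : ℝ) : ℂ :=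
  (1 / (2 * Real.pi) : ℂ) * ∫ t : ℝ, hh χ m U γ ((t : ℂ) * I) * Complex.exp ((t : ℂ) * v * I)

/-- The integrand of the pairing: `-L'(1/2+z) Ek(z - iγ) e^{Uz} / ((z - iγ)(1/2 + z))`. -/
noncomputable def Ph {r : ℕ} [NeZero r] (χ : DirichletCharacter ℂ r) (m : ℕ) (U γ : ℝ) (z : ℂ) : ℂ :=
  -(deriv χ.LFunction (1 / 2 + z)) * Ek (sg r U) (vl r m U) m (z - (γ : ℂ) * I) * Complex.exp ((U : ℂ) * z) /
    ((z - (γ : ℂ) * I) * (1 / 2 + z))

/-- The zero `w` (of `Lam χ`) has no other zero at distance less than `d`. -/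
def iso {r : ℕ} [NeZero r] (χ : DirichletCharacter ℂ r) (d : ℝ) (w : ℂ) : Prop :=
  ∀ w' : ℂ, Lam χ w' = 0 → w' ≠ w → d ≤ ‖w' - w‖

open scoped Classical in
/-- The isolated simple zeros on the line, `|Im w| ≤ T`. -/
noncomputable def IZ {r : ℕ} [NeZero r] (χ : DirichletCharacter ℂ r) (T d : ℝ) : Finset ℂ :=
  (GZ χ T).filter (fun w => iso χ d w)

/-- The good cells `(χ, t)`. -/
def gd (r : ℕ) [NeZero r] (b R K : ℝ) (m : ℕ) (χ : DirichletCharacter ℂ r) (t : ℝ) : Prop :=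
  Real.circleAverage (fun w => ‖χ.LFunction (pz r t w) * MM r χ (pt r b t)‖ ^ 2) 0 (R + 1)
    ≤ Real.exp (7 * R) ∧
  ‖χ.LFunction (pt r b t) * MM r χ (pt r b t) - 1‖ ≤ 1 / 2 ∧
  ∫ t' : ℝ, ‖χ.LFunction (pt r 0 t') * MM r χ (pt r b t)‖ ^ 2 * kw r m t t' ≤ K

/-- The centre of cell number `j` (spacing `1/⌊log r⌋`, from `-T`). -/
noncomputable def tj (r T j : ℕ) : ℝ := -(T : ℝ) + (j : ℝ) / (⌊Real.log r⌋₊ : ℝ)

/-- The number of cells. -/
noncomputable def nj (r T : ℕ) : ℕ := 2 * T * ⌊Real.log r⌋₊ + 1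

end Pool.Agent.SE
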